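import Mathlib
import Pool.Agent.W442.SN.NC
import Pool.Agent.Y830.SC.Geo

/-!
# Tangent cones of Schubert varieties that are not Cohen-Macaulay in `S_n` for every `n ≥ 10`

The starting result of this repository has one pair in `S_10`.
-/

set_option autoImplicit false

namespace Pool.Agent.Results.MP_9fb153_ag.EveryLargeN

open Pool.Agent.W442.SV Pool.Agent.W442.SN Pool.Agent.Y830.SC

/-- There is an isomorphism of `ℂ`-algebras that carries the ideal `m` to the ideal `m'`. -/
def SamePair {R S : Type} [CommRing R] [CommRing S] [Algebra ℂ R] [Algebra ℂ S] (m : Ideal R)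
    (m' : Ideal S) : Prop :=
  ∃ E : R ≃ₐ[ℂ] S, m.map ((E : R ≃+* S) : R →+* S) = m'

/-- The local ring of `X_{w'}` at `e_{v'}` is isomorphic to that of `X_w` at `e_v`, maximal ideal
to maximal ideal. -/
def SameLocalRing {m n : ℕ} (v' w' : Equiv.Perm (Fin m)) (v w : Equiv.Perm (Fin n)) : Prop :=
  SamePair (R := LocalRing v' w') (S := LocalRing v w) (mx v' w') (mx v w)

/-- The associated graded ring of `R` with respect to `m` is Cohen-Macaulay. -/
def GrCM {R : Type} [CommRing R] (m : Ideal R) : Prop := IsCM (GrRing m)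

/-- The associated graded ring `⊕ m^i / m^(i+1)` of the local ring of `X_w` at `e_v` is
Cohen-Macaulay. -/
def TangentConeCM {n : ℕ} (v w : Equiv.Perm (Fin n)) : Prop := GrCM (R := LocalRing v w) (mx v w)

/-- (1) For all permutations `v`, `w` of `n` points the local ring of `X_{w ⊕ 1}` at `e_{v ⊕ 1}` is
isomorphic to that of `X_w` at `e_v`, and the tangent cone of `X_{w ⊕ 1}` at `e_{v ⊕ 1}` is
Cohen-Macaulay if and only if that of `X_w` at `e_v` is.  (2) For every `n ≥ 10` there are `v ≤ w`
in `S_n` such that the tangent cone of `X_w` at `e_v` is not Cohen-Macaulay. -/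
theorem result :
    (∀ (n : ℕ) (v w : Equiv.Perm (Fin n)), SameLocalRing (ext1 v) (ext1 w) v w ∧
      (TangentConeCM (ext1 v) (ext1 w) ↔ TangentConeCM v w)) ∧
    ∀ n : ℕ, 10 ≤ n → ∃ v w : Equiv.Perm (Fin n), BruhatLE v w ∧ ¬ TangentConeCM v w := by
  refine ⟨fun n v w => ⟨loc_equiv embL embL_injective _ _ (patch_ext1 v w), isCM_ext1 v w⟩, ?_⟩
  refine all_large (fun n v w => ¬ TangentConeCM v w) ?_ 10 ⟨v1, w1, v1_le_w1, not_cm⟩
  intro n v w h h'
  exact h ((isCM_ext1 v w).1 h')

end Pool.Agent.Results.MP_9fb153_ag.EveryLargeN
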